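import Pool.Agent.Helper68.QS.St3

/-!
# Project QD, straightening: module BCA (base change of a disc)
-/

set_option autoImplicit false

open MeasureTheory Set Filter Topology Complex
open scoped ContDiff ComplexConjugate ENNReal

namespace Pool.Agent.Helper44.QS

open Pool.Agent.Helper68.QS Pool.Agent.Helper68.QC
open Pool.Agent.Helper61.QE (D Dx rf SU Fu FD Ab sy nuT muT syX syY Kap En Et)

private theorem disc_lt {s t : ℂ} (hs : ‖s‖ < 1) (ht : ‖t‖ < 1) :
    1 + conj t * s ≠ 0 ∧ ‖(s + t) / (1 + conj t * s)‖ < 1 := by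
  have h0 : ‖conj t * s‖ < 1 := by
    rw [norm_mul, RCLike.norm_conj]
    nlinarith [norm_nonneg s, norm_nonneg t]
  have h1 : 1 + conj t * s ≠ 0 := by
    intro h
    have h2 : conj t * s = -1 := by linear_combination h
    rw [h2, norm_neg, norm_one] at h0
    exact lt_irrefl _ h0
  refine ⟨h1, ?_⟩
  have h3 : ‖1 + conj t * s‖ ^ 2 - ‖s + t‖ ^ 2 = (1 - ‖s‖ ^ 2) * (1 - ‖t‖ ^ 2) := by
    rw [Complex.sq_norm, Complex.sq_norm, Complex.sq_norm, Complex.sq_norm, Complex.normSq_apply,
      Complex.normSq_apply, Complex.normSq_apply, Complex.normSq_apply]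
    simp only [Complex.add_re, Complex.add_im, Complex.mul_re, Complex.mul_im, Complex.conj_re,
      Complex.conj_im, Complex.one_re, Complex.one_im]
    ring
  have h4 : 0 < (1 - ‖s‖ ^ 2) * (1 - ‖t‖ ^ 2) := by
    have e1 : 0 < 1 - ‖s‖ ^ 2 := by nlinarith [norm_nonneg s]
    have e2 : 0 < 1 - ‖t‖ ^ 2 := by nlinarith [norm_nonneg t]
    positivity
  rw [norm_div, div_lt_one (norm_pos_iff.2 h1)]
  exact lt_of_pow_lt_pow_left₀ 2 (norm_nonneg _) (by linarith)

private theorem bel_muD {k : ℝ} {κ n : ℂ → ℂ} (hD : Dis k κ n) {τ : ℂ} {K : ℝ} (h1 : k ≤ K)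
    (h2 : ‖τ‖ ≤ K) : Bel K (muD κ n τ) := by
  refine ⟨?_, ?_⟩
  · unfold muD
    exact hD.belk.meas.add (hD.beln.meas.const_mul τ)
  · intro z
    unfold muD
    rcases hD.dis z with h | ⟨h, h'⟩
    · rw [h, mul_zero, add_zero]
      exact (hD.belk.le z).trans h1
    · rw [h', zero_add, norm_mul, h, mul_one]
      exact h2

private theorem bel_mD {k : ℝ} {κ n a : ℂ → ℂ} {t : ℂ} (hD : Dis k κ n)
    (ha : DNq (muD κ n t) a) : Bel 1 (mD κ n a t) := by
  have hm : Measurable (fun ζ => (nq (muD κ n t)).symm ζ) :=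
    (nq (muD κ n t)).symm.continuous.measurable
  refine ⟨?_, ?_⟩
  · unfold mD
    have h1 := hD.beln.meas.comp hm
    have h2 := ha.meas.comp hm
    exact h1.mul (h2.div (Complex.continuous_conj.measurable.comp h2))
  · intro z
    unfold mD
    rw [norm_mul, norm_div, RCLike.norm_conj, div_self (norm_ne_zero_iff.2 (ha.ne _)), mul_one]
    exact hD.beln.le _

theorem pBCA (hCMX : Pool.Agent.Helper68.QS.StCMX) (hNUL : Pool.Agent.Helper68.QC.StNUL)
    (hCGR : Pool.Agent.Helper68.QS.StCGR) : Pool.Agent.Helper68.QS.StBCA := by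
  intro k κ n a t hD ht ha
  have hval : ∀ z, mD κ n a t (nq (muD κ n t) z) = n z * (a z / conj (a z)) := by
    intro z
    unfold mD
    rw [Homeomorph.symm_apply_apply]
  have hbm := bel_mD hD ha
  refine ⟨hbm, hval, ?_⟩
  intro s hs
  obtain ⟨hne, hlt⟩ := disc_lt hs ht
  refine ⟨hlt, ?_⟩
  set t' := (s + t) / (1 + conj t * s) with ht'
  have hK : max k (max ‖t‖ ‖t'‖) < 1 := max_lt hD.lt (max_lt ht hlt)
  have hb1 : Bel (max k (max ‖t‖ ‖t'‖)) (muD κ n t) :=
    bel_muD hD (le_max_left _ _) ((le_max_left _ _).trans (le_max_right _ _))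
  have hb2 : Bel (max k (max ‖t‖ ‖t'‖)) (muD κ n t') :=
    bel_muD hD (le_max_left _ _) ((le_max_right _ _).trans (le_max_right _ _))
  obtain ⟨δ, hδ, ν, hν, hcomp, hae⟩ := hCMX _ hK (muD κ n t') (muD κ n t) hb2 hb1 a ha
  have hst : t' - t = s * (1 - conj t * t') := by
    have h : t' * (1 + conj t * s) = s + t := div_mul_cancel₀ _ hne
    linear_combination h
  have h1t : 1 - conj t * t' ≠ 0 := by
    intro h
    have h2 : conj t * t' = 1 := by linear_combination -h
    have h3 : ‖conj t * t'‖ < 1 := by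
      rw [norm_mul, RCLike.norm_conj]
      nlinarith [norm_nonneg t, norm_nonneg t']
    rw [h2, norm_one] at h3
    exact lt_irrefl _ h3
  have hae2 : ∀ᵐ z : ℂ, ν (nq (muD κ n t) z) = s * mD κ n a t (nq (muD κ n t) z) := by
    filter_upwards [hae] with z hz
    have haz := ha.ne z
    have hcz : conj (a z) ≠ 0 := (map_ne_zero (starRingEnd ℂ)).2 haz
    rw [hval]
    rcases hD.dis z with h | ⟨h, h'⟩
    · have e1 : muD κ n t z = κ z := by unfold muD; rw [h, mul_zero, add_zero]
      have e2 : muD κ n t' z = κ z := by unfold muD; rw [h, mul_zero, add_zero]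
      rw [e1, e2, sub_self, mul_zero] at hz
      have h3 : 1 - conj (κ z) * κ z ≠ 0 := by
        intro h4
        have h5 : conj (κ z) * κ z = 1 := by linear_combination -h4
        have h6 : ‖conj (κ z) * κ z‖ < 1 := by
          rw [norm_mul, RCLike.norm_conj]
          have h7 := hD.belk.le z
          have h8 := hD.lt
          nlinarith [norm_nonneg (κ z)]
        rw [h5, norm_one] at h6
        exact lt_irrefl _ h6
      rw [h, zero_mul, mul_zero]
      rcases mul_eq_zero.1 hz with h4 | h4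
      · exact h4
      · exact absurd h4 (mul_ne_zero hcz h3)
    · have e1 : muD κ n t z = t * n z := by unfold muD; rw [h', zero_add]
      have e2 : muD κ n t' z = t' * n z := by unfold muD; rw [h', zero_add]
      have e3 : conj (n z) * n z = 1 := by
        rw [← Complex.normSq_eq_conj_mul_self, Complex.normSq_eq_norm_sq, h]
        norm_num
      have e4 : 1 - conj (t * n z) * (t' * n z) = 1 - conj t * t' := by
        rw [map_mul]
        linear_combination -(conj t * t') * e3
      rw [e1, e2, e4] at hz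
      have e5 : (ν (nq (muD κ n t) z) * conj (a z) - s * n z * a z) * (1 - conj t * t') = 0 := by
        linear_combination hz + a z * n z * hst
      rcases mul_eq_zero.1 e5 with h4 | h4
      · field_simp
        linear_combination h4
      · exact absurd h4 h1t
  have hae3 : ∀ᵐ y : ℂ, ν y = s * mD κ n a t y := by
    rw [ae_iff] at hae2 ⊢
    have h1 : {y : ℂ | ¬ ν y = s * mD κ n a t y} = nq (muD κ n t) ''
        {z : ℂ | ¬ ν (nq (muD κ n t) z) = s * mD κ n a t (nq (muD κ n t) z)} := by
      ext y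
      constructor
      · intro hy
        refine ⟨(nq (muD κ n t)).symm y, ?_, Homeomorph.apply_symm_apply _ _⟩
        show ¬ _
        rw [Homeomorph.apply_symm_apply]
        exact hy
      · rintro ⟨z, hz, rfl⟩
        exact hz
    rw [h1]
    exact (hNUL _ hK _ hb1 _).2 hae2
  have hb3 : Bel (max δ ‖s‖) ν := ⟨hν.meas, fun z => (hν.le z).trans (le_max_left _ _)⟩
  have hb4 : Bel (max δ ‖s‖) (fun y => s * mD κ n a t y) := by
    refine ⟨hbm.meas.const_mul s, fun z => ?_⟩
    rw [norm_mul]
    have h1 := hbm.le z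
    have h2 : ‖s‖ * ‖mD κ n a t z‖ ≤ ‖s‖ := by nlinarith [norm_nonneg s]
    exact h2.trans (le_max_right _ _)
  have hnq := hCGR.1 _ (max_lt hδ hs) _ _ hb3 hb4 hae3
  intro z
  rw [hcomp z, hnq]

end Pool.Agent.Helper44.QS
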